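import Mathlib
import Pool.Agent.H49.Sumset.Defs
import Pool.Agent.H49.Sumset.Rho

/-!
The triples `(G, m, h)` with `ρ(G, m, h) = hm - h + 1 < |G|`, and their minimisers.
-/

set_option autoImplicit false

namespace Pool.Agent.Results.MP_4c924c_co.SumsetClassification

open Pool.Agent.H49.Sumset

universe u

/-- Let `G` be a finite abelian group of order `n`, `1 ≤ m ≤ n` and `h ≥ 2`.

* `ρ(G, m, h) = hm - h + 1 < n` if and only if `hm - h + 1 < n` and
  `h * ((m - 1) mod d) < d` for every divisor `d` of `n`.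
* If this is the case, then the `m`-subsets `A` of `G` with `|hA| = hm - h + 1` are exactly the sets
  which arise from a translate `c + T` of a tower `T` over a subgroup `H` by deleting
  `(h - 1)(|H| - 1) / h` arbitrary elements. -/
theorem result {G : Type u} [AddCommGroup G] [Fintype G] [DecidableEq G] (m h : ℕ) (hm : 1 ≤ m)
    (hmn : m ≤ Fintype.card G) (hh : 2 ≤ h) :
    ((rho G m h = h * m - h + 1 ∧ h * m - h + 1 < Fintype.card G) ↔
      (h * m - h + 1 < Fintype.card G ∧
        ∀ d, d ∣ Fintype.card G → h * ((m - 1) % d) < d)) ∧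
    ((rho G m h = h * m - h + 1 ∧ h * m - h + 1 < Fintype.card G) →
      ∀ A : Finset G, A.card = m →
        ((hfold h A).card = h * m - h + 1 ↔
          ∃ (H F : AddSubgroup G) (T : Finset G) (c : G), Tower h H F T ∧
            (∀ a ∈ A, a - c ∈ T) ∧ h * (T.card - m) = (h - 1) * (Nat.card H - 1))) := by
  have e0 : h * m - h = h * (m - 1) := (Nat.mul_sub_one h m).symm
  rw [e0]
  refine ⟨⟨fun h1 => ⟨h1.2, (rho_eq_iff hm hmn (by omega)).1 h1.1⟩,
    fun h1 => ⟨(rho_eq_iff hm hmn (by omega)).2 h1.2, h1.1⟩⟩, ?_⟩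
  rintro ⟨hρ, -⟩ A hA
  have hT := (rho_eq_iff hm hmn (by omega)).1 hρ
  have hAne : A.Nonempty := Finset.card_pos.1 (by omega)
  obtain ⟨k, rfl⟩ : ∃ k, h = k + 1 := ⟨h - 1, by omega⟩
  rw [hfold_eq, Nat.add_sub_cancel]
  subst hA
  have key : ∀ (H : AddSubgroup G) (T : Finset G), A.card ≤ T.card →
      ((k + 1) * (T.card - A.card) = k * (Nat.card H - 1) ↔
        (k + 1) * T.card + k = (k + 1) * A.card + k * oH H) := by
    intro H T hAT
    have h1 := oH_pos H
    rw [← oH_eq H]
    obtain ⟨x, hx⟩ : ∃ x, T.card = A.card + x := ⟨T.card - A.card, by omega⟩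
    obtain ⟨y, hy⟩ : ∃ y, oH H = y + 1 := ⟨oH H - 1, by omega⟩
    rw [hx, hy, Nat.add_sub_cancel_left, Nat.add_sub_cancel]
    have e1 : (k + 1) * (A.card + x) = (k + 1) * A.card + (k + 1) * x := by ring
    have e2 : k * (y + 1) = k * y + k := by ring
    omega
  have hle : ∀ (T : Finset G) (c : G), (∀ a ∈ A, a - c ∈ T) → A.card ≤ T.card := by
    intro T c hTc
    exact Finset.card_le_card_of_injOn (fun a => a - c) hTc
      (fun x _ y _ hxy => sub_left_injective hxy)
  constructor
  · intro h1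
    obtain ⟨H, F, T, c, h2, h3, h4⟩ := classify_forward (by omega) hAne hT (le_of_eq h1)
    exact ⟨H, F, T, c, h2, h3, (key H T (hle T c h3)).2 h4⟩
  · rintro ⟨H, F, T, c, h2, h3, h4⟩
    exact classify_backward hAne hT h2 h3 ((key H T (hle T c h3)).1 h4)

end Pool.Agent.Results.MP_4c924c_co.SumsetClassification
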